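import Pool.Agent.U231.FR.Kt

/-!
# The K-groups of products with varieties of Fermat type over finite fields

Let `κ` be a finite field with `q` elements, of characteristic `p`, and `𝒱` a class of smooth projective
varieties over `κ`, closed under products, with Chow groups `A` with rational coefficients and a Weil
cohomology theory `H` (framework of helper492 and helper484: `TheoryData`, `IsChow`, `IsWeil`). Let `X_i` be
varieties in `𝒱` **of Fermat type** of different prime degrees `N_i` and of lengths at most `s_i`
(`IsFermatType`): the cohomology of `X_i` is generated by the classes of cycles and a subspace `T_i`, stable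
under the Frobenius, such that each eigenvalue of the Frobenius on `T_i` is, up to a root of unity and a
power of `q`, a product `∏_{a ∈ A} g(θ ^ a)` of at most `s_i` Gauss sums over `κ`, where `θ` is a
multiplicative character of `κ` of order `N_i`, and where the multiset `A + p A + ⋯ + p ^ (f - 1) A`, `f` the
order of `p` modulo `N_i`, is not symmetric, i.e. not invariant under `a ↦ -a`.

By the theorem of Weil the diagonal hypersurfaces `∑ c_j x_j ^ N = 0` of dimension `n` over `κ` (for
`q ≡ 1` modulo `N`) and their powers and products are of this form with `s = n + 2` (for products: the sum
of these numbers), if the classes with symmetric `A + p A + ⋯` are algebraic. For `p ≡ 1` modulo `N` the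
condition on the multiset is that `A` is not symmetric, and **the algebraicity for symmetric `A` is known**
for `c_j = 1`, and in general after a finite extension of `κ` (linear subspaces, Ran, Shioda and Katsura).

Let `U` be **any** separated scheme of finite type over `κ`, and `Z` **any** variety in `𝒱`. Fix an integer
`m ≥ 0`. For `X` in `𝒱` let `G X = K'_m(X × U)` be the `K`-group of coherent sheaves on `X × U`; for `U` a
point (or any smooth `U`) this is the group `K_m(X × U)`, the group `K_m(X)` of the question for `U` a point.
With rational coefficients `G X` is the sum of the eigenspaces `T^n(X)` of the Adams operations, the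
higher Chow groups of `X × U` of codimension `n` (`IsKTheory`; Bloch). On `T` act the correspondences
between the varieties in `𝒱`, the Frobenius endomorphism `φ` of `U` commutes with the correspondences,
and the Frobenius endomorphism of `X × U` is `q ^ n` on `T^n(X)` (`IsCycleTheory`); only such properties are
used. (The Frobenius endomorphisms operate by push-forward or by pull-back; for a general `U` one
takes the operation for which this is true.)
Let `χ` be a polynomial with rational coefficients, `χ (0) ≠ 0`, with `χ (φ) = 0` (for `U` a point `χ = x - 1`; for general `U` it exists if the motive of `U` is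
finite-dimensional, and its roots are Frobenius eigenvalues of `U`), let `B` be the set of the products
`β` of an eigenvalue of Frobenius on `H(Z)` and of a complex root of `χ`, and suppose that the `β` are
algebraic (theorem of Deligne). Let `f_i` be the order of `p` modulo `N_i`. Suppose that for all `β` in `B` and all `i` there is an `m > 0` such that (`IsSmallBase`)

* the field `F = ℚ(β ^ m) ∩ ℚ(ζ_{N_i})`, `ζ_N` a root of unity of order `N`, is real (equivalently
  `(N_i - 1) / [F : ℚ]` is even); for instance `N_i` is odd and unramified in the field `ℚ(β ^ m)`;
* or `N_i > s_i f_i [F : ℚ] + 1`; or `N_i = 2`.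

**So the theorem applies to all prime numbers `N_i` with finitely many exceptions, which depend only on
the fields `ℚ(β)`. For the other primes there is no condition at all on the `X_i`: they may be of any
dimension and products of any number of factors, and `s_i` and `f_i` are arbitrary.** Finally suppose that
homologically trivial self-correspondences of degree zero of the products `V` are nilpotent. This is
known for example if `Z` is dominated by a product of curves and the `X_i` are diagonal hypersurfaces
(Kimura; Shioda and Katsura).

**Theorem.** Let `V` be the product of `Z` and of the `X_i` for `i` in a finite set `L`, let `b_i` be the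
number of linearly independent classes of algebraic cycles on `X_i` in `H(X_i)` (`cycleNumber`) and
`b = ∏_{i ∈ L} b_i > 0`. Then
* `K'_m(V × U) ⊗ ℚ` **is isomorphic to the sum of `b` copies of** `K'_m(Z × U) ⊗ ℚ`;
* `K'_m(V × U)` **is a torsion group if and only if** `K'_m(Z × U)` **is a torsion group.**

So for every `m` the answer to the question for `V` is the same as for `Z`; no case of the Tate conjecture
is assumed. For instance `Z` may be an arbitrary product of curves, or an abelian variety; and for `Z` a
point or a curve (Harder, Soulé) **all higher `K`-groups of `V` are torsion groups**: for example for the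
products of a curve of genus `g` with diagonal hypersurfaces `∑ x_j ^ N_i = 0`, of any dimensions `n_i`, of
different odd prime degrees `N_i` dividing `p - 1`, unramified in the fields of the eigenvalues of
Frobenius on the cohomology of the curve.

The earlier results for this problem are about varieties generated by abelian varieties with given
slopes. The varieties of Fermat type are of a different kind, and `Z` is arbitrary.

The proof. Let `α_i` be eigenvalues of the Frobenius on the `T_i`, for `i` in a nonempty set `I`, and
suppose that `β ∏ α_i` is a power of `q` up to a root of unity. By the theorem of Stickelberger for the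
conjugates of Gauss sums the function `t ↦ ∑_{x ∈ A + p A + ⋯} saw(t x)` on `(ℤ/N_i)ˣ` is invariant
under the subgroup with the fixed field `F`. The values `L(1, χ)` are not zero, so the
sawtooth functions `t ↦ saw(t x)` are independent up to the sign of `x`, and the odd part of the
multiplicity function of `A + p A + ⋯` is invariant under this subgroup and not zero. So `-1` is not
in the subgroup (`F` is not real), and the support of `A + p A + ⋯` contains a coset of it: at least
`(N_i - 1) / [F : ℚ]` elements, but at most `s_i f_i`, a contradiction
(`U231/FF`, as in my hand-ins `FermatFactors` for other conjectures, see the claim file).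
The Künneth formula for the `T^n` then follows by projectors in the ring generated by the Frobenius
and the algebraic cycles (helper876, `N876/CG`).

helper231 (`Pool/Agent/U231/FF`, `U231/FR`); the part on theories with correspondences is the library of
helper876 (`N876/CG`), built on helpers 484, 492, 550.
-/

set_option autoImplicit false

open Polynomial CategoryTheory AlgebraicGeometry

namespace Pool.Agent.Results.MP_27fd67_ag.FermatFactors

open Pool.Agent.H914 Pool.Agent.H914.VarClass Pool.Agent.H914.VarClass.Obj Pool.Agent.W492.BB
  Pool.Agent.W484.CK Pool.Agent.U231.FF Pool.Agent.U231.FR.Base Pool.Agent.U231.FR.Kt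

/-- **The `K`-groups of products of arbitrary schemes with varieties of Fermat type of different prime degrees.** -/
theorem result (p : ℕ) [Fact p.Prime] (κ : Type) [Field κ] [Fintype κ] [CharP κ p] {ι : Type}
    (N s : ι → ℕ) {𝒱 : VarClass κ} (A : TheoryData.{0, 0, 0} 𝒱 ℚ) [IsChow A] {K : Type} [Field K]
    [IsAlgClosed K] [CharZero K] (H : WeilTheoryData.{0, 0, 0} A K) [IsWeil H] (τ : K →+* ℂ)
    (F : ∀ X : 𝒱.Obj, X ⟶ X) (X : ι → 𝒱.Obj) (Z : 𝒱.Obj) (χ : ℚ[X])
    (h : IsFermatSystem p N s H τ F X Z χ) (hnil : ∀ L, Nilpotence H (productOf X Z L))
    (T : MotivicData A) (φ : ∀ X, T.M X →ₗ[ℚ] T.M X)
    (hT : IsCycleTheory T φ F (Fintype.card κ)) (hT0 : IsRoot T φ χ)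
    (G : 𝒱.Obj → Type) [∀ X, AddCommGroup (G X)] (hG : IsKTheory G T) :
    (∀ L : List ι, L.Nodup → Conclusions H X Z G L) ∧
    -- the degree in the condition on `Z` and `U` is at most the degree of `β`
    (∀ (n : ℕ) (β : ℂ), IsAlgebraic ℚ β → commonDegree n β ≤ (minpoly ℚ β).natDegree) :=
  ⟨fun L hL => main p κ N s A H τ F X Z χ h hnil T φ hT hT0 G hG L hL,
    fun _ _ hβ => commonDegree_le hβ⟩

end Pool.Agent.Results.MP_27fd67_ag.FermatFactors
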