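import Pool.Agent.U226.FX.Par

/-!
# The size of the higher K-groups of `Z × X ^ n` over a finite field

Let `X` be ANY nonempty smooth projective scheme over `F_q`, `b` its total Betti number, `Z` any smooth
projective scheme over `F_q`, `ρ (n)` the rank of the group of cycles on `X ^ n` modulo numerical
equivalence, and `m ≥ 1`. Parshin's conjecture says `K_m (Z × X ^ n)_ℚ = 0`; it is not even known that
these spaces are finite-dimensional.

Theorem.
(1) (Law.) `dim K_m (Z × X ^ n)_ℚ / ρ (n)` converges, for `n → ∞`, to a natural number or to infinity; the
limit is zero if and only if Parshin's conjecture (for this `m`) holds for all `Z × X ^ n`.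
(2) (Gap.) If `K_m (Z × X ^ l)` is not torsion, for example if `K_m (Z)` is not torsion (`l = 0`), then
for ALL `n ≥ 128 (l + 1) ^ 2 b ^ (2 l + 6)`

  `dim K_m (Z × X ^ n)_ℚ ≥ ρ (n) / 2`  and  `dim K_m (Z × X ^ (2 n))_ℚ ≥ b ^ (2 n) / (2 (n + 1) ^ (b ^ 2))`.

So one inequality `2 dim K_m (Z × X ^ n)_ℚ < ρ (n)` for one such `n` implies Parshin's conjecture for
`Z × X ^ l`; the bound on `n` does not depend on `Z` or `m`.
(3) (Tate and boundedness imply Parshin.) Let the strong form of the conjecture of Tate hold for ONE
power `X ^ l`, for example for `X` itself: the order of the pole of the zeta function at `i` is the rank of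
the group of cycles of codimension `i` modulo numerical equivalence. Then **`K_m (X ^ l)` is torsion,
or `dim K_m (X ^ n)_ℚ / ρ (n) → ∞`.** So Parshin's conjecture for `X` holds if there is a constant `c` with
`dim K_m (X ^ n)_ℚ ≤ c ρ (n)` for infinitely many `n`.

For example let `X` be a K3 surface or a cubic fourfold over `F_q` (`b = 24`, `27`), where the conjecture of
Tate is known and Parshin's conjecture is open: either all `K_m (X)_ℚ` vanish or the K-groups of the powers
grow faster than every multiple of the numerical rank. It is well known that Parshin's conjecture follows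
from the conjecture of Tate and the equality of rational and numerical equivalence for all varieties
(Geisser), and for `X` from the conjecture of Tate for `X` and its finite-dimensionality in the sense of
Kimura (Kahn). Here no such hypothesis on Chow groups occurs, only the size of the K-group itself.
The starting results of this problem concern products with abelian varieties, the starting results
`MP_4960c7_ag.ProductsVanish`, `.ZeroOrExponential` the Chow groups, where the law has the form `1` or more;
for the groups `K_m` there are no results of this kind there.

The setting. `C` is the category of Chow motives over `F_q` with the correspondences of all degrees as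
morphisms, a rigid symmetric monoidal category; `T = h(X)` is self-dual, `tp T n = h(X ^ n)`,
`B = h(Z)`, `R` is the `ℓ`-adic cohomology with coefficients extended to an algebraic closure; `C⁺` is known
for all `X` (Katz and Messing). `F` is the additive functor `h(Y) ↦ K_m (Y)_ℚ` (Soulé; correspondences act
through the graded pieces of the Adams operations), `F (1) = K_m (F_q)_ℚ = 0` by Quillen. `φ` is the
Frobenius of `X ^ l`, `eigen φ (q ^ i)` are the cycles of codimension `i`; `K_m (X ^ l)_ℚ` is the direct sum of
the eigenspaces of `φ` for the eigenvalues `q ^ i` (`TateSpanned`: those for which the strong form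
of the conjecture of Tate, `StrongTate`, is assumed; for `i > l dim X` there are no cycles and the
eigenvalue does not occur in the cohomology).

Idea of the proof. (1) and (2) are the law of the values of additive functors on the powers of `X` (starting
library `N64.AF`) for `Y ↦ K_m (Z × Y)_ℚ`. For (3): if the limit is finite then numerically trivial
correspondences act on `K_m (X ^ l)_ℚ` in a nilpotent way. There is a polynomial `e` with `e (q ^ i) = 1` such
that `ε = e (φ)` is the projector to the generalised eigenspace of `q ^ i` on the cohomology. By the conjecture
of Tate this space is spanned by the classes of cycles `β_j`; let `γ_j` be dual cycles, `p = ∑ γ_j ≫ β_j`.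
Then `ε - p` is homologically trivial, so that it acts on `K_m (X ^ l)_ℚ` in a nilpotent way. But `p`
factors through copies of the point and acts as `0`, and `ε` is the identity on the eigenspace of
`q ^ i` in `K_m (X ^ l)_ℚ`. So this eigenspace is zero.
-/

set_option autoImplicit false

open CategoryTheory MonoidalCategory Module Filter Topology
open Pool.Agent.Y112.SR Pool.Agent.Y112.KD Pool.Agent.N64.AF Pool.Agent.U226.FX
open scoped ENNReal

namespace Pool.Agent.Results.MP_27fd67_ag.ParshinLaw

universe v u w t x

/-- The law for an additive functor `F` with `F (1) = 0` on the products of a fixed arbitrary `B` with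
the powers of `T`, and the vanishing of its values under the strong form of the conjecture of Tate
and a bound for its size. -/
theorem result {C : Type u} [Category.{v} C] [Preadditive C] [MonoidalCategory C]
    [MonoidalPreadditive C] [SymmetricCategory C] [RightRigidCategory C]
    {Λ : Type t} [Field Λ] [CharZero Λ] [Linear Λ C] [MonoidalLinear Λ C]
    {K : Type w} [Field K] [IsAlgClosed K] [Algebra Λ K] (R : SuperRealisation C K)
    (T : C) [ExactPairing T T] (h : IsPow Λ R T) (F : C ⥤ ModuleCat.{x} Λ)
    [F.Additive] [F.Linear Λ] (hF1 : Subsingleton (F.obj (𝟙_ C))) :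
    (∃ N : ℕ∞, RatioTo Λ T (fun n => dimE Λ (F.obj (tp T n))) N ∧
      (N = 0 ↔ ∀ n, Subsingleton (F.obj (tp T n))) ∧
      (N ≠ ⊤ → ∀ (n : ℕ) (φ : tp T n ⟶ tp T n), TateSpanned R F φ →
        Subsingleton (F.obj (tp T n)))) ∧
    (∀ B : C, ∃ N : ℕ∞, RatioTo Λ T (funDim F B T) N ∧
      (N = 0 ↔ ∀ n, Subsingleton (F.obj (B ⊗ tp T n)))) ∧
    ∀ (B : C) (m n : ℕ), ¬ Subsingleton (F.obj (B ⊗ tp T m)) →
      128 * (m + 1) ^ 2 * bt R T ^ (2 * m + 6) ≤ n →
        (numRank Λ (tp T n) : ℕ∞) ≤ 2 * funDim F B T n ∧
        ((bt R T ^ (2 * n) : ℕ) : ℕ∞) ≤
          (2 * (n + 1) ^ (bt R T ^ 2) : ℕ) * funDim F B T (n + n) :=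
  fun_law h F hF1

end Pool.Agent.Results.MP_27fd67_ag.ParshinLaw
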