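import Pool.Agent.U926.SF.ParDefs
import Pool.Agent.U926.SF.Ret

/-!
# Parshin's conjecture for hypersurfaces `g_0 + ⋯ + g_r = 0`

Let `F` be a finite field, and let `g_0, …, g_r` be nonsingular forms of degree `d ≥ 2` in separate
sets of variables over the algebraic closure of `F`, `d` prime to the characteristic:

* `d = 3`: cubic forms in at most three variables each;
* `d = 4`: quartic forms in at most two variables each;
* `d ∣ 24`, `d ≠ 24` (`d = 2, 3, 4, 6, 8, 12`): forms in one variable each (Fermat hypersurfaces).

There is no restriction on the number of the forms, so the dimension of the hypersurface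
`X : g_0 + ⋯ + g_r = 0` is arbitrary.

**Theorem.** Let `X₀` be a variety over a finite extension of `F` which becomes isomorphic to `X` over
the algebraic closure. Then the groups `K_n(X₀)`, `n ≥ 1`, are torsion groups. The same is true for all
products of such hypersurfaces (of any degrees) with elliptic curves and all other varieties which are
built from products of elliptic curves, and for every variety which is built from such products: for
example for the coverings `w ^ m = F(x)` of the projective space, `m` a divisor of `d`, for quotients and
images under generically finite morphisms, for the blow-ups of such products in such products, and for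
projective bundles over them.

Known: products of curves of small dimension (Soulé), products of elliptic curves (Geisser, Kahn, by
the theorem of Spiess).

The known theorems which are used:

* the formal properties of the Chow groups (`IsChowProj`), and the action of correspondences on the
  K-groups (`IsKTheory`);
* `hT`, the theorem of Katsura and Shioda: `f(x) + g(y) = 0` is dominated by the product of
  `f(x) + z ^ d = 0` and `g(y) + w ^ d = 0`, blown up in the product of `f(x) = 0` and `g(y) = 0`;
* `hM`: the motives of plane cubic curves, of cubic surfaces, of the plane curves
  `f(x, y) + z ^ 4 = 0` and of the Fermat curves of the degrees `d ∣ 24`, `d ≠ 24`, are direct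
  summands of motives of products of elliptic curves;
* `hE`: Parshin's conjecture for products of elliptic curves (Spiess, Geisser, Kahn).
-/

universe u v

namespace Pool.Agent.Results.MP_27fd67_ag.SumsOfForms

open Pool.Agent.H914 Pool.Agent.W492.BB Pool.Agent.TH133 Pool.Agent.U926.SF

/-- **Parshin's conjecture** for the hypersurfaces `g_0 + ⋯ + g_r = 0` with equations in separate sets of
variables, for their products with varieties built from products of elliptic curves, and for all
varieties which are built from these products. -/
theorem result {F : Type u} [Field F] [Finite F] {𝒱 : VarClass (AlgebraicClosure F)}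
    {C : TheoryData.{u, v, 0} 𝒱 ℚ} [IsChowProj C] (T : Hypersurfaces 𝒱)
    (hT : ∀ d : ℕ, 2 ≤ d → (d : AlgebraicClosure F) ≠ 0 → IsKatsuraShioda C T d)
    (hM : HaveEllipticMotives C T) (K : ModelGroups F 𝒱 ℕ) (hK : IsKTheory C K)
    (hE : ∀ Y : 𝒱.Obj, IsEllipticProduct Y → Parshin K Y) (X : 𝒱.Obj)
    (hX : IsBuiltFrom C (IsEllipticSum C T) X) : Parshin K X :=
  hK.retracts.torsion (S := fun n => 1 ≤ n) (fun i r hi => by rw [hK.shift]; exact hi)
    (fun Y hY m i hi x => hE Y hY m i hi x) (hX.trans fun _ hY => hY.isBuiltFrom hT hM)

end Pool.Agent.Results.MP_27fd67_ag.SumsOfForms
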